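import Mathlib
import Pool.Agent.Lib.helper24.Succ

set_option autoImplicit false

open Set Filter Topology TopologicalSpace MeasureTheory
open Cardinal hiding univ
open Pool.Agent.Lib.helper24.Succ

namespace Pool.Agent.H.MP_67c6ba_gt

lemma mF {d : Type} [Fintype d] (k : d → ℤ) (x : UnitAddTorus d) :
    UnitAddTorus.mFourier k x = AddCircle.toCircle (∑ i, k i • x i) := by
  classical
  simp only [UnitAddTorus.mFourier, ContinuousMap.coe_mk, fourier_apply]
  induction (Finset.univ : Finset d) using Finset.induction_on with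
  | empty => simp
  | insert a s ha ih => rw [Finset.prod_insert ha, Finset.sum_insert ha, ih, AddCircle.toCircle_add,
      Circle.coe_mul]

lemma dual_fin {d : Type} [Fintype d] (L : AddSubgroup (UnitAddTorus d))
    (hL : IsClosed (L : Set (UnitAddTorus d)))
    (h : ∀ k : d → ℤ, (∀ x ∈ L, ∑ i, k i • x i = 0) → k = 0) (y : UnitAddTorus d) : y ∈ L := by
  have hc : CompactSpace L := isCompact_iff_compactSpace.1 hL.isCompact
  let μ : Measure L := Measure.addHaarMeasure ⊤
  have hμ : IsProbabilityMeasure μ := ⟨Measure.addHaarMeasure_self⟩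
  have hi : ∀ (f : C(UnitAddTorus d, ℂ)) (z : UnitAddTorus d),
      Integrable (fun x : L => f (z + x)) μ := fun f z =>
    Continuous.integrable_of_hasCompactSupport (by fun_prop) (HasCompactSupport.of_compactSpace _)
  let Λ : UnitAddTorus d → C(UnitAddTorus d, ℂ) →L[ℂ] ℂ := fun z => LinearMap.mkContinuous
    { toFun := fun f => ∫ x : L, f (z + x) ∂μ
      map_add' := fun f g => integral_add (hi f z) (hi g z)
      map_smul' := fun c f => integral_smul c fun x : L => f (z + x) } 1 fun f => by
        simpa using norm_integral_le_of_norm_le_const (μ := μ)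
          (Eventually.of_forall fun x : L => f.norm_coe_le_norm (z + x))
  have hΛ : ∀ z f, Λ z f = ∫ x : L, f (z + x) ∂μ := fun _ _ => rfl
  have hm : ∀ k z, Λ z (UnitAddTorus.mFourier k) =
      UnitAddTorus.mFourier k z * Λ 0 (UnitAddTorus.mFourier k) := fun k z => by
    simp only [hΛ, mF, ← integral_const_mul, Pi.add_apply, smul_add, Finset.sum_add_distrib,
      AddCircle.toCircle_add, Circle.coe_mul, zero_add]
  have he : Λ y = Λ 0 := by
    refine ContinuousLinearMap.ext_on (s := range UnitAddTorus.mFourier)
      (Submodule.dense_iff_topologicalClosure_eq_top.2 UnitAddTorus.span_mFourier_closure_eq_top) ?_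
    rintro _ ⟨k, rfl⟩
    rw [hm]
    by_cases hk : k = 0
    · simp [hk, UnitAddTorus.mFourier_zero]
    · obtain ⟨x, hx, hx'⟩ : ∃ x ∈ L, ∑ i, k i • x i ≠ 0 := by
        by_contra hh
        push Not at hh
        exact hk (h k hh)
      have h1 : Λ x (UnitAddTorus.mFourier k) = Λ 0 (UnitAddTorus.mFourier k) := by
        simp only [hΛ, zero_add]
        exact integral_add_left_eq_self (fun w : L => UnitAddTorus.mFourier k w.1) ⟨x, hx⟩
      have h2 : UnitAddTorus.mFourier k x ≠ 1 := by
        rw [mF]
        intro h3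
        exact hx' (AddCircle.injective_toCircle one_ne_zero
          (by rw [AddCircle.toCircle_zero]; exact Subtype.ext h3))
      rw [hm] at h1
      rw [(mul_left_eq_self₀.1 h1).resolve_left h2, mul_zero]
  by_contra hy
  obtain ⟨f, f0, f1, -⟩ := exists_continuous_zero_one_of_isClosed hL
    (hL.preimage (continuous_const.add continuous_id : Continuous fun x => -y + x))
    (disjoint_left.2 fun x h1 h2 => hy (by simpa using L.sub_mem h1 h2))
  have := congr($he ⟨fun x => (f x : ℂ), by fun_prop⟩)
  have e0 : ∀ x : L, f x = 0 := fun x => f0 x.2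
  have e1 : ∀ x : L, f (y + x) = 1 := fun x => f1 (by simp)
  simp [hΛ, e0, e1] at this

lemma dual {I : Type} (L : AddSubgroup (I → UnitAddCircle))
    (h : ∀ k : I →₀ ℤ, (∀ x ∈ L, Finsupp.linearCombination ℤ x k = 0) → k = 0) :
    Dense (L : Set (I → UnitAddCircle)) := by
  classical
  refine dense_iff_inter_open.2 fun U hU ⟨y, hy⟩ => ?_
  obtain ⟨F, u, hu, hF⟩ := isOpen_pi_iff.1 hU y hy
  let r : (I → UnitAddCircle) →+ UnitAddTorus F :=
    AddMonoidHom.pi fun i => Pi.evalAddMonoidHom _ i.1
  have := dual_fin (L.map r).topologicalClosure (AddSubgroup.isClosed_topologicalClosure _)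
    (fun k hk => by
      have := h (Finsupp.embDomain (Function.Embedding.subtype _)
        ((Finsupp.linearEquivFunOnFinite ℤ ℤ F).symm k)) fun x hx => by
          rw [Finsupp.linearCombination_embDomain,
            Finsupp.linearCombination_eq_fintype_linearCombination_apply,
            Fintype.linearCombination_apply]
          exact hk _ (AddSubgroup.le_topologicalClosure _ ⟨x, hx, rfl⟩)
      simpa using this) (r y)
  obtain ⟨_, h1, x, hx, rfl⟩ := mem_closure_iff.1 this (univ.pi fun i : F => u i)
    (isOpen_set_pi finite_univ fun i _ => (hu i i.2).1) fun i _ => (hu i i.2).2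
  exact ⟨x, hF fun i hi => h1 ⟨i, hi⟩ trivial, hx⟩

open Classical in
lemma indep (J : Type) (hJ : #J ≤ continuum) : ∃ (b : J → ℝ) (l : J → ℝ →ₗ[ℤ] ℝ),
    (∀ j j', l j (b j') = if j' = j then 1 else 0) ∧ (∀ j x, l j (√2 * x) = √2 * l j x) ∧
      ∀ j, l j 1 = 0 := by
  let K := algebraicClosure ℚ ℝ
  have hK : #K ≤ ℵ₀ := by
    refine le_trans (mk_le_mk_of_subset (s := (K : Set ℝ)) fun x hx => ?_)
      (Algebraic.countable ℚ ℝ).le_aleph0
    exact mem_algebraicClosure_iff.1 hx
  let B := Module.Basis.ofVectorSpace K ℝ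
  have hB := B.mk_eq_rank''
  rw [(Module.Free.rank_eq_mk_of_infinite_lt K ℝ (by
    simpa [mk_real] using hK.trans_lt aleph0_lt_continuum)), mk_real] at hB
  obtain ⟨e⟩ : Nonempty (Option J ↪ _) := (le_def _ _).1 (le_of_le_of_eq (by
    rw [mk_option]
    exact add_le_of_le aleph0_le_continuum hJ (one_le_aleph0.trans aleph0_le_continuum)) hB.symm)
  have h2 : √2 ∈ K := by
    refine mem_algebraicClosure_iff.2 (IsAlgebraic.of_pow two_pos ?_)
    rw [Real.sq_sqrt zero_le_two]
    exact isAlgebraic_natCast 2
  refine ⟨fun j => B (e (some j)) / B (e none), fun j => AddMonoidHom.toIntLinearMap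
    ⟨⟨fun x => (B.coord (e (some j)) (x * B (e none)) : K), by simp⟩, fun x y => by
      simp [add_mul]⟩, fun j j' => ?_, fun j x => ?_, fun j => ?_⟩
  · simp [div_mul_cancel₀ _ (B.ne_zero _), Finsupp.single_apply]
    split_ifs <;> simp
  · have := (B.coord (e (some j))).map_smul (⟨√2, h2⟩ : K) (x * B (e none))
    simp only [AddMonoidHom.coe_toIntLinearMap, AddMonoidHom.coe_mk, ZeroHom.coe_mk, mul_assoc]
    exact congrArg Subtype.val this
  · simp

abbrev I : Type := W ℵ₀ ⊕ Bool
abbrev G : Type := Option (W ℵ₀)

open Classical in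
noncomputable def a (b : G × I → ℝ) : G → I → ℝ
  | none, i => b (none, i)
  | some x, Sum.inl y => if y ≤ x then b (some x, Sum.inl y) else 0
  | some x, Sum.inr false => b (some x, Sum.inr false)
  | some x, Sum.inr true => √2 * b (some x, Sum.inr false)

noncomputable def R (b : G × I → ℝ) (n : G →₀ ℤ) (i : I) : ℝ :=
  Finsupp.linearCombination ℤ (fun g => a b g i) n

noncomputable def Φ (b : G × I → ℝ) : (G →₀ ℤ) →+ (I → UnitAddCircle) where
  toFun n i := R b n i
  map_zero' := by ext i; simp [R]
  map_add' m n := by ext i; simp [R]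

lemma lc {J : Type} (k : J →₀ ℤ) (s : Finset J) {f : J → ℝ} (h : ∀ i ∉ s, f i = 0) :
    Finsupp.linearCombination ℤ f k = ∑ i ∈ s, k i * f i := by
  rw [Finsupp.linearCombination_apply, Finsupp.sum]
  exact Finset.sum_congr_of_eq_on_inter (fun i _ hi => by simp [h i hi])
    (fun i _ hi => by simp [Finsupp.notMem_support_iff.1 hi]) fun i _ _ => by simp

theorem main (Γ : Type) [Group Γ] [TopologicalSpace Γ] (p : Γ →* Multiplicative ℝ)
    (hp : Continuous p) (hs : Function.Surjective p) :
    ∃ (H : Type) (_ : CommGroup H) (_ : TopologicalSpace H) (_ : IsTopologicalGroup H)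
      (_ : T2Space H), (∀ K : Subgroup H, IsClosed (K : Set H) → SeparableSpace K) ∧
      ∃ L : Subgroup (Γ × H), IsClosed (L : Set (Γ × H)) ∧ ¬ SeparableSpace L := by
  classical
  have hW : #(W ℵ₀) ≤ continuum := by
    rw [mk_W]; exact Order.succ_le_of_lt aleph0_lt_continuum
  obtain ⟨b, l, h1, h2, h3⟩ := indep (G × I) (by
    have h0 := aleph0_le_continuum
    rw [mk_prod, lift_id, lift_id, mk_option, mk_sum, lift_id, lift_id]
    exact mul_le_of_le h0 (add_le_of_le h0 hW (one_le_aleph0.trans h0))
      (add_le_of_le h0 hW (mk_le_aleph0.trans h0)))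
  have hz : ∀ j (z : ℤ), l j z = 0 := fun j z => by
    rw [← zsmul_one, map_zsmul, h3, smul_zero]
  have hl : ∀ g i n i', l (g, i) (R b n i') = n g * l (g, i) (a b g i') := by
    intro g i n i'
    rw [R, Finsupp.apply_linearCombination, lc n {g}]
    · simp
    · intro g' h
      have h : g' ≠ g := by simpa using h
      rcases g' with _ | x <;> rcases i' with y | _ | _ <;> simp [a, h1, h2, h, apply_ite]
  have key : ∀ (k : I →₀ ℤ) n, Finsupp.linearCombination ℤ (Φ b n) k = 0 → ∀ g i,
      n g * Finsupp.linearCombination ℤ (fun i' => l (g, i) (a b g i')) k = 0 := by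
    intro k n h g i
    have e1 : ((Finsupp.linearCombination ℤ (R b n) k : ℝ) : UnitAddCircle) = 0 := by
      rw [← h]
      exact Finsupp.apply_linearCombination ℤ (QuotientAddGroup.mk' _).toIntLinearMap _ _
    obtain ⟨z, hz'⟩ := (AddCircle.coe_eq_zero_iff _).1 e1
    have := congrArg (l (g, i)) hz'
    rw [zsmul_one, hz, Finsupp.apply_linearCombination] at this
    rw [this]
    simp [Finsupp.linearCombination_apply, Finsupp.sum, hl, Finset.mul_sum, mul_left_comm]
  have k1 : ∀ (k : I →₀ ℤ) n, Finsupp.linearCombination ℤ (Φ b n) k = 0 → ∀ i,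
      n none = 0 ∨ k i = 0 := fun k n h i => by
    have := key k n h none i
    rw [lc k {i} fun i' hi => by simpa [a, h1] using hi] at this
    simpa [a, h1] using this
  have k2 : ∀ (k : I →₀ ℤ) n, Finsupp.linearCombination ℤ (Φ b n) k = 0 → ∀ x y, y ≤ x →
      n (some x) = 0 ∨ k (Sum.inl y) = 0 := fun k n h x y hy => by
    have := key k n h (some x) (Sum.inl y)
    rw [lc k {Sum.inl y} fun i' hi => by
      rcases i' with y' | _ | _ <;> simp [a, h1, h2, apply_ite] at hi ⊢
      exact fun _ => hi] at this
    simpa [a, h1, hy] using this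
  have irr : ∀ u v : ℤ, u + v * √2 = 0 → u = 0 ∧ v = 0 := fun u v h => by
    have hv : v = 0 := by
      by_contra hv
      exact (irrational_sqrt_two.intCast_mul hv).ne_int (-u) (by push_cast; linarith)
    exact ⟨by simpa [hv] using h, hv⟩
  have k3 : ∀ (k : I →₀ ℤ) n, Finsupp.linearCombination ℤ (Φ b n) k = 0 → ∀ x,
      n (some x) = 0 ∨ ∀ c, k (Sum.inr c) = 0 := fun k n h x => by
    have := key k n h (some x) (Sum.inr false)
    rw [lc k {Sum.inr false, Sum.inr true} fun i' hi => by
      rcases i' with y' | _ | _ <;> simp [a, h1, apply_ite] at hi ⊢, Finset.sum_pair (by simp)] at this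
    refine (mul_eq_zero.1 this).imp (by simp) fun h => ?_
    simpa using irr _ _ (by simpa [a, h1, h2] using h)
  let H := (Φ b).range
  have hs1 : Dense (AddSubgroup.zmultiples (Φ b (Finsupp.single none 1)) :
      Set (I → UnitAddCircle)) := dual _ fun k hk => Finsupp.ext fun i =>
    (k1 k _ (hk _ (AddSubgroup.mem_zmultiples _)) i).resolve_left (by simp)
  have hsep : SeparableSpace H := by
    refine ⟨⟨Subtype.val ⁻¹' (AddSubgroup.zmultiples (Φ b (Finsupp.single none 1)) : Set _),
      (countable_range _).preimage Subtype.val_injective, ?_⟩⟩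
    refine IsInducing.subtypeVal.dense_iff.2 fun x => ?_
    refine closure_mono (fun w hw => ?_) (hs1 _)
    exact ⟨⟨w, AddSubgroup.zmultiples_le_of_mem (H := H) ⟨_, rfl⟩ hw⟩, hw, rfl⟩
  refine ⟨Multiplicative H, inferInstance, inferInstance, inferInstance,
    inferInstanceAs (T2Space H), fun K hK => ?_, ?_⟩
  · let K' : AddSubgroup (I → UnitAddCircle) := (Subgroup.toAddSubgroup' K).map H.subtype
    by_cases hd : Dense (K' : Set (I → UnitAddCircle))
    · have : K = ⊤ := eq_top_iff.2 fun x _ => hK.closure_subset
        ((IsInducing.subtypeVal (t := (H : Set (I → UnitAddCircle)))).dense_iff.2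
          (fun x => hd _) x)
      subst this
      have : SeparableSpace (Multiplicative H) := hsep
      exact (Subgroup.topEquiv.symm.surjective.denseRange).separableSpace
        (continuous_id.subtype_mk _)
    · obtain ⟨k, hk, i, hi⟩ : ∃ k : I →₀ ℤ,
          (∀ x ∈ K', Finsupp.linearCombination ℤ x k = 0) ∧ ∃ i, k i ≠ 0 := by
        by_contra hh
        push Not at hh
        exact hd (dual _ fun k hk => Finsupp.ext (hh k hk))
      obtain ⟨y, hy⟩ : ∃ y, ∀ n, Φ b n ∈ K' → ∀ x, n (some x) ≠ 0 → x < y := by
        rcases i with y | c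
        · exact ⟨y, fun n hn x hx => not_le.1 fun h => hi ((k2 k n (hk _ hn) x y h).resolve_left hx)⟩
        · exact ⟨Classical.arbitrary _, fun n hn x hx =>
            absurd ((k3 k n (hk _ hn) x).resolve_left hx c) hi⟩
      let S : Set G := insert none (some '' Iio y)
      have hS : Countable S := (((le_aleph0_iff_set_countable.1 (card_Iio y)).image _).insert _)
      have : (K' : Set (I → UnitAddCircle)).Countable := by
        refine (countable_range fun m : S →₀ ℤ =>
          Φ b (m.embDomain (Function.Embedding.subtype _))).mono ?_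
        rintro _ hx
        obtain ⟨⟨_, n, rfl⟩, -, rfl⟩ := id hx
        refine ⟨n.subtypeDomain _, congrArg (Φ b) ?_⟩
        ext g
        by_cases h : g ∈ S
        · exact Finsupp.embDomain_apply_self (Function.Embedding.subtype _) _ ⟨g, h⟩
        · rw [Finsupp.embDomain_of_notMem_range _ _ _ (by simpa using h)]
          by_contra h'
          rcases g with _ | x
          · exact h (Or.inl rfl)
          · exact h (Or.inr ⟨x, hy n hx x (Ne.symm h'), rfl⟩)
      have : Countable K := countable_of_injective_of_countable_image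
        (f := fun x : Multiplicative H => x.toAdd.1) Subtype.val_injective.injOn this
      infer_instance
  · let t : Bool → ℝ := fun c => bif c then √2 else 1
    let L : Subgroup (Γ × Multiplicative H) :=
      { carrier := {x | ∀ c, x.2.toAdd.1 (Sum.inr c) = ↑(t c * (p x.1).toAdd)}
        mul_mem' := fun hx hy c => by simp [hx c, hy c, mul_add]
        one_mem' := fun c => by simp
        inv_mem' := fun hx c => by simp [hx c] }
    refine ⟨L, ?_, fun ⟨D, hD, hd⟩ => ?_⟩
    · simp only [L, Subgroup.coe_set_mk, Submonoid.coe_set_mk, Subsemigroup.coe_set_mk,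
        ofPred_forall]
      refine isClosed_iInter fun c => isClosed_eq ?_ ?_
      · exact (continuous_apply _).comp (continuous_subtype_val.comp continuous_snd)
      · exact continuous_quotient_mk'.comp (continuous_const.mul (hp.comp continuous_fst))
    · choose n hn using fun x : H => x.2
      have h0 : ∀ (m : G →₀ ℤ) (r : ℝ), (∀ c, Φ b m (Sum.inr c) = ↑(t c * r)) → m none = 0 := by
        intro m r h
        have : ∀ c, ∃ z : ℤ, R b m (Sum.inr c) = t c * r + z := fun c => by
          obtain ⟨z, hz⟩ := (AddCircle.coe_eq_zero_iff (1 : ℝ)).1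
            ((AddCircle.coe_sub _ _ _).trans (sub_eq_zero.2 (h c)))
          exact ⟨z, by rw [zsmul_one] at hz; linarith⟩
        obtain ⟨u, hu⟩ := this false
        obtain ⟨v, hv⟩ := this true
        have e1 := congrArg (l (none, Sum.inr true)) hu
        have e2 := congrArg (l (none, Sum.inr true)) hv
        simp [hl, a, h1, h2, hz, t] at e1 e2
        simpa [← e1] using e2
      obtain ⟨y, hy⟩ := bdd_countable le_rfl (⋃ d ∈ D, some ⁻¹' ((n d.1.2.toAdd).support : Set G))
        (hD.biUnion fun d _ => (Finset.countable_toSet _).preimage (Option.some_injective _))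
      obtain ⟨g, hg⟩ := hs (Multiplicative.ofAdd (b (some y, Sum.inr false)))
      have hc0 : Continuous fun d : Γ × Multiplicative H => d.2.toAdd.1 (Sum.inl y) :=
        (continuous_apply _).comp (continuous_subtype_val.comp continuous_snd)
      have hc : Continuous fun d : L => d.1.2.toAdd.1 (Sum.inl y) :=
        hc0.comp continuous_subtype_val
      have := closure_minimal (s := D) (t := {d | d.1.2.toAdd.1 (Sum.inl y) = 0}) (fun d hd' => by
        have e := h0 (n d.1.2.toAdd) _ fun c => (congrFun (hn _) _).trans (d.2 c)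
        have : R b (n d.1.2.toAdd) (Sum.inl y) = 0 := by
          rw [R, Finsupp.linearCombination_apply]
          refine Finset.sum_eq_zero ?_
          rintro (_ | x) hx
          · simp [e]
          · simp [a, (hy x (mem_biUnion hd' hx)).not_ge]
        rw [mem_ofPred_eq, ← hn]
        exact (congrArg _ this).trans (AddCircle.coe_zero _))
        (isClosed_eq hc continuous_const)
        (hd ⟨(g, Multiplicative.ofAdd ⟨Φ b (Finsupp.single (some y) 1), _, rfl⟩), by
          rintro (_ | _) <;> simp [Φ, R, a, t, hg]⟩)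
      obtain ⟨z, hz'⟩ := (AddCircle.coe_eq_zero_iff (1 : ℝ)).1 this
      have := congrArg (l (some y, Sum.inl y)) hz'
      simp [hz, hl, a, h1] at this

end Pool.Agent.H.MP_67c6ba_gt
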